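import Mathlib

/-!
# Every binary 7 x 7 square extends to a rich plane

The extension is `w'(i, j) = w(σ i, σ j)` where `σ : ℤ → {0, …, 6}` is the identity on `{0, …, 6}`,
is continued to the right with period `5` (`2,3,4,5,6`) and to the left with period `5`
(`0,1,2,3,4`).
-/

namespace Pool.Agent.Results.MP_0bf243_co.SevenSquares

/-- The set of palindromic factors of a finite word (the empty word included). -/
def palFactors {α : Type*} (w : List α) : Set (List α) := {f | f <:+: w ∧ f.reverse = f}

/-- A finite word is rich if it has exactly `|w| + 1` distinct palindromic factors, the empty word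
included. -/
def Rich {α : Type*} (w : List α) : Prop := (palFactors w).ncard = w.length + 1

/-- A plane `ℤ² → {0,1}` (first index: row, second index: column) is rich if every finite factor of
every row and of every column is rich. -/
def RichPlane (w : ℤ → ℤ → Bool) : Prop :=
  ∀ (i j : ℤ) (n : ℕ),
    Rich ((List.range (n + 1)).map fun k : ℕ => w i (j + k)) ∧
    Rich ((List.range (n + 1)).map fun k : ℕ => w (i + k) j)

/-- A two-dimensional binary word, `none` meaning an empty cell. -/
abbrev PartialWord := ℤ → ℤ → Option Bool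

/-- `w` extends to a rich plane. -/
def ExtendsToRichPlane (w : PartialWord) : Prop :=
  ∃ w' : ℤ → ℤ → Bool, (∀ i j a, w i j = some a → w' i j = a) ∧ RichPlane w'

/-- All non-empty cells lie in some block `{i₀, …, i₀+6} × {j₀, …, j₀+6}`. -/
def IsSevenSquare (w : PartialWord) : Prop :=
  ∃ i₀ j₀ : ℤ, ∀ i j, w i j ≠ none → (i₀ ≤ i ∧ i ≤ i₀ + 6) ∧ (j₀ ≤ j ∧ j ≤ j₀ + 6)

/-! ### Combinatorics on words -/

section words

variable {α : Type*}

/-- the factor of length `n` starting at position `i` -/
def fac (u : ℤ → α) (i : ℤ) (n : ℕ) : List α := (List.range n).map fun k : ℕ => u (i + k)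

@[simp] theorem length_fac (u : ℤ → α) (i : ℤ) (n : ℕ) : (fac u i n).length = n := by
  simp [fac]

theorem getElem_fac (u : ℤ → α) (i : ℤ) (n k : ℕ) (h : k < (fac u i n).length) :
    (fac u i n)[k] = u (i + k) := by
  simp [fac]

theorem fac_add (u : ℤ → α) (i : ℤ) (a b : ℕ) : fac u i (a + b) = fac u i a ++ fac u (i + a) b := by
  unfold fac
  rw [List.range_add, List.map_append, List.map_map]
  congr 1
  apply List.map_congr_left
  intro k _
  simp only [Function.comp]
  congr 1
  push_cast
  ring

theorem finite_palFactors (w : List α) : (palFactors w).Finite := by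
  classical
  refine (w.sublists.toFinset.finite_toSet).subset ?_
  rintro f ⟨hf, -⟩
  simp only [List.coe_toFinset, Set.mem_ofPred_eq, List.mem_sublists]
  exact hf.sublist

theorem rich_nil : Rich ([] : List α) := by
  have : palFactors ([] : List α) = {[]} := by
    ext f
    simp only [palFactors, Set.mem_ofPred_eq, Set.mem_singleton_iff]
    constructor
    · rintro ⟨h, -⟩; exact List.infix_nil.1 h
    · rintro rfl; exact ⟨List.infix_rfl, rfl⟩
  rw [Rich, this, Set.ncard_singleton]
  rfl

/-- a palindromic proper suffix is a factor of the word without its last letter -/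
theorem infix_of_suffix {w f q : List α} {x : α} (hf : f.reverse = f) (hq : q.reverse = q)
    (h1 : f <:+ q) (h2 : q <:+ w ++ [x]) (hlt : f.length < q.length) : f <:+: w := by
  -- f is a prefix of q
  have h3 : f <+: q := by
    have := List.reverse_prefix.2 h1
    rwa [hf, hq] at this
  -- write q = q' ++ [y]
  obtain ⟨q', y, rfl⟩ : ∃ q' y, q = q' ++ [y] := by
    have hne : q ≠ [] := by rintro rfl; simp at hlt
    exact ⟨q.dropLast, q.getLast hne, (List.dropLast_append_getLast hne).symm⟩
  have h4 : f <+: q' := by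
    rcases List.prefix_concat_iff.1 (by simpa using h3) with h | h
    · rw [h] at hlt; simp at hlt
    · exact h
  have h5 : q' <:+ w := by
    obtain ⟨t, ht⟩ := h2
    rw [← List.append_assoc] at ht
    have := List.append_inj' ht rfl
    exact ⟨t, this.1⟩
  exact h4.isInfix.trans h5.isInfix

theorem palFactors_concat {w q : List α} {x : α} (hq : q.reverse = q) (h2 : q <:+ w ++ [x])
    (h3 : ¬ q <:+: w) : palFactors (w ++ [x]) = insert q (palFactors w) := by
  ext f
  simp only [palFactors, Set.mem_ofPred_eq, Set.mem_insert_iff]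
  constructor
  · rintro ⟨hf, hp⟩
    by_cases hfw : f <:+: w
    · exact Or.inr ⟨hfw, hp⟩
    · left
      have hfs : f <:+ w ++ [x] := by
        rcases List.infix_concat_iff.1 hf with h | h
        · exact h
        · exact absurd h hfw
      rcases lt_trichotomy f.length q.length with h | h | h
      · exact absurd (infix_of_suffix hp hq (List.suffix_of_suffix_length_le hfs h2 h.le) h2 h) hfw
      · exact (List.suffix_of_suffix_length_le hfs h2 h.le).eq_of_length h
      · exact absurd (infix_of_suffix hq hp (List.suffix_of_suffix_length_le h2 hfs h.le) hfs h) h3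
  · rintro (rfl | ⟨h, hp⟩)
    · exact ⟨h2.isInfix, hq⟩
    · exact ⟨h.trans (List.prefix_append w [x]).isInfix, hp⟩

theorem rich_concat {w q : List α} {x : α} (hw : Rich w) (hq : q.reverse = q)
    (h2 : q <:+ w ++ [x]) (h3 : ¬ q <:+: w) : Rich (w ++ [x]) := by
  rw [Rich, palFactors_concat hq h2 h3, Set.ncard_insert_of_notMem _ (finite_palFactors w), hw]
  · simp
  · exact fun h => h3 h.1

/-- the factors of length `m` at `s` and `t` coincide -/
def EqOn (u : ℤ → α) (t s : ℤ) (m : ℕ) : Prop := ∀ k : ℕ, k < m → u (t + k) = u (s + k)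

/-- the factor of length `m` at `s` is a palindrome -/
def PalOn (u : ℤ → α) (s : ℤ) (m : ℕ) : Prop := ∀ k : ℕ, k < m → u (s + k) = u (s + m - 1 - k)

/-- a complete return of length `d + m` to a palindrome of length `m < d` which is not a
palindrome -/
def Bad (u : ℤ → α) (t : ℤ) (d m : ℕ) : Prop :=
  1 ≤ m ∧ m < d ∧ EqOn u t (t + d) m ∧ PalOn u (t + d) m ∧
    (∀ r : ℕ, 0 < r → r < d → ¬ EqOn u (t + r) (t + d) m) ∧ ¬ PalOn u t (d + m)

theorem fac_reverse {u : ℤ → α} {s : ℤ} {m : ℕ} (h : PalOn u s m) :
    (fac u s m).reverse = fac u s m := by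
  apply List.ext_getElem
  · simp
  · intro k h1 h2
    rw [List.getElem_reverse, getElem_fac, getElem_fac]
    rw [length_fac] at h2
    rw [h k h2]
    congr 1
    rw [length_fac]
    omega

theorem eqOn_of_infix {u : ℤ → α} {i s : ℤ} {n m : ℕ} (h : fac u s m <:+: fac u i n) :
    ∃ r : ℕ, r + m ≤ n ∧ EqOn u (i + r) s m := by
  obtain ⟨a, b, hab⟩ := h
  have hlen := congrArg List.length hab
  simp only [List.length_append, length_fac] at hlen
  refine ⟨a.length, by omega, ?_⟩
  intro k hk
  have h1 : a.length + k < (fac u i n).length := by rw [length_fac]; omega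
  have h3 : (fac u i n)[a.length + k] = (fac u s m)[k]'(by rw [length_fac]; exact hk) := by
    simp only [← hab]
    rw [List.getElem_append_left (by simp; omega)]
    rw [List.getElem_append_right (by omega)]
    simp
  rw [getElem_fac, getElem_fac] at h3
  rw [← h3]
  congr 1
  push_cast
  ring

theorem suffix_fac (u : ℤ → α) (i : ℤ) (a m : ℕ) : fac u (i + a) m <:+ fac u i (a + m) := by
  rw [fac_add]; exact List.suffix_append _ _

theorem palOn_of_overlap {u : ℤ → α} {t : ℤ} {d m : ℕ} (hd : d ≤ m)
    (hE : EqOn u t (t + d) m) (hP : PalOn u (t + d) m) : PalOn u t (d + m) := by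
  have key : ∀ k : ℕ, k < m → u (t + k) = u (t + (d + m : ℕ) - 1 - k) := by
    intro k hk
    rw [hE k hk, hP k hk]
    congr 1
    push_cast
    ring
  intro k hk
  by_cases h : k < m
  · exact key k h
  · have h1 := key (d + m - 1 - k) (by omega)
    have e1 : t + ((d + m - 1 - k : ℕ) : ℤ) = t + (d + m : ℕ) - 1 - k := by omega
    have e2 : t + ((d + m : ℕ) : ℤ) - 1 - ((d + m - 1 - k : ℕ) : ℤ) = t + k := by omega
    rw [e1, e2] at h1
    exact h1.symm

open Classical in
theorem rich_of_noBad {u : ℤ → α} (hu : ∀ t d m, ¬ Bad u t d m) (i : ℤ) (n : ℕ) :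
    Rich (fac u i n) := by
  induction n with
  | zero => exact rich_nil
  | succ n ih =>
    -- the longest palindromic suffix
    have hex : ∃ a : ℕ, a ≤ n ∧ PalOn u (i + a) (n + 1 - a) := by
      refine ⟨n, le_rfl, ?_⟩
      intro k hk
      congr 1
      omega
    set a := Nat.find hex with ha
    obtain ⟨han, haP⟩ := Nat.find_spec hex
    have hmin : ∀ b, b < a → b ≤ n → ¬ PalOn u (i + b) (n + 1 - b) :=
      fun b hb hbn h => Nat.find_min hex hb ⟨hbn, h⟩
    rw [← ha] at han haP
    have e1 : fac u i (n + 1) = fac u i n ++ [u (i + n)] := by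
      rw [fac_add]; simp [fac]
    rw [e1]
    refine rich_concat (q := fac u (i + a) (n + 1 - a)) ih (fac_reverse haP) ?_ ?_
    · rw [← e1]
      have := suffix_fac u i a (n + 1 - a)
      rwa [Nat.add_sub_cancel' (by omega)] at this
    · intro hin
      obtain ⟨r, hr, hE⟩ := eqOn_of_infix hin
      -- the last occurrence
      set Q : ℕ → Prop := fun r => EqOn u (i + r) (i + a) (n + 1 - a) with hQ
      set r₀ := Nat.findGreatest Q (a - 1) with hr₀
      have hQr₀ : Q r₀ := Nat.findGreatest_spec (show r ≤ a - 1 by omega) hE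
      have hr₀a : r₀ ≤ a - 1 := Nat.findGreatest_le _
      have hgt : ∀ r', r₀ < r' → r' < a → ¬ Q r' :=
        fun r' h1 h2 => Nat.findGreatest_is_greatest h1 (by omega)
      have eda : i + (a : ℤ) = i + r₀ + ((a - r₀ : ℕ) : ℤ) := by omega
      have hE' : EqOn u (i + r₀) (i + r₀ + ((a - r₀ : ℕ) : ℤ)) (n + 1 - a) := by
        rw [← eda]; exact hQr₀
      have hP' : PalOn u (i + r₀ + ((a - r₀ : ℕ) : ℤ)) (n + 1 - a) := by
        rw [← eda]; exact haP
      have hnP : ¬ PalOn u (i + r₀) ((a - r₀) + (n + 1 - a)) := by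
        rw [show (a - r₀) + (n + 1 - a) = n + 1 - r₀ by omega]
        exact hmin r₀ (by omega) (by omega)
      by_cases hov : a - r₀ ≤ n + 1 - a
      · exact hnP (palOn_of_overlap hov hE' hP')
      · refine hu (i + r₀) (a - r₀) (n + 1 - a) ⟨by omega, by omega, hE', hP', ?_, hnP⟩
        intro r' h1 h2 h3
        apply hgt (r₀ + r') (by omega) (by omega)
        rw [hQ]
        simp only
        rw [← eda] at h3
        rw [show i + ((r₀ + r' : ℕ) : ℤ) = i + r₀ + r' by push_cast; ring]
        exact h3

end words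

/-! ### The index map -/

/-- the index map `ℤ → {0,…,6}` -/
def sg (x : ℤ) : ℕ := if x < 2 then (x % 5).toNat else 2 + ((x - 2) % 5).toNat

/-- the index map, with the argument shifted by `20` -/
def sgN (k : ℕ) : ℕ := if k < 22 then k % 5 else 2 + (k - 22) % 5

theorem sg_lt (x : ℤ) : sg x < 7 := by
  unfold sg; split_ifs <;> omega

theorem sg_right {x : ℤ} (h : 2 ≤ x) : sg (x + 5) = sg x := by
  unfold sg; rw [if_neg (by omega), if_neg (by omega)]; omega

theorem sg_left {x : ℤ} (h : x ≤ 4) : sg (x - 5) = sg x := by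
  unfold sg
  rw [if_pos (by omega)]
  split_ifs <;> omega

theorem sg_id {x : ℤ} (h0 : 0 ≤ x) (h6 : x ≤ 6) : sg x = x.toNat := by
  unfold sg; split_ifs <;> omega

theorem sg_shift (k : ℕ) : sg ((k : ℤ) - 20) = sgN k := by
  unfold sg sgN
  by_cases h : k < 22
  · rw [if_pos (by omega), if_pos h]; omega
  · rw [if_neg (by omega), if_neg h]; omega

/-! ### The finite check -/

/-- the `c`-th word, shifted -/
def v (c k : ℕ) : Bool := c.testBit (sgN k)

/-- equality of factors -/
def cE (c t s n : ℕ) : Bool := (List.range n).all fun k => v c (t + k) == v c (s + k)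

/-- palindromicity of a factor -/
def cP (c t m : ℕ) : Bool := (List.range m).all fun k => v c (t + k) == v c (t + (m - 1 - k))

/-- occurrence strictly between -/
def cO (c t d n : ℕ) : Bool := (List.range (d - 1)).any fun r => cE c (t + (r + 1)) (t + d) n

/-- no bad complete return of the given shape -/
def cS (c t d n : ℕ) : Bool := !(cE c t (t + d) n && cP c (t + d) n) || cP c t (d + n) || cO c t d n

/-- check for the two periodic parts -/
def cA (c t : ℕ) : Bool :=
  (List.range 6).all fun d => (List.range 5).all fun n => !(decide (1 ≤ n ∧ n < d)) || cS c t d n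

/-- check across the middle, short palindromes; `e` is the end of the first occurrence -/
def cC (c : ℕ) : Bool :=
  (List.range 5).all fun e => (List.range 7).all fun s => !(decide (e + 2 ≤ s)) ||
    (List.range 5).all fun n => !(decide (1 ≤ n)) || cS c (e + 21 - n) (s + n - (e + 1)) n

/-- check across the middle, long palindromes -/
def cD (c : ℕ) : Bool :=
  (List.range 5).all fun e => (List.range 7).all fun s => !(decide (e + 2 ≤ s)) ||
    (List.range 5).all fun n =>
      !(cE c (e + 21 - (n + 5)) (s + 20) (n + 5) && cP c (s + 20) (n + 5)) ||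
      cP c (e + 21) (s - e - 1) ||
      ((List.range (e + 1)).all fun x => v c (x + 25) == v c (x + 20)) ||
      ((List.range (7 - s)).all fun x => v c (s + x + 15) == v c (s + x + 20))

theorem check_A : ∀ c : Fin 128, ((List.range 5).all fun t => cA c.1 (22 + t)) = true := by
  decide +kernel

theorem check_B : ∀ c : Fin 128, ((List.range 5).all fun t => cA c.1 (11 + t)) = true := by
  decide +kernel

theorem check_C : ∀ c : Fin 128, cC c.1 = true := by decide +kernel

theorem check_D : ∀ c : Fin 128, cD c.1 = true := by decide +kernel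

/-- `Bad`, in terms of the word `y ↦ u (t + y)` -/
def Bad' {α : Type*} (f : ℕ → α) (d m : ℕ) : Prop :=
  1 ≤ m ∧ m < d ∧ (∀ k < m, f k = f (d + k)) ∧ (∀ k < m, f (d + k) = f (d + (m - 1 - k))) ∧
    (∀ r, 0 < r → r < d → ¬ ∀ k < m, f (r + k) = f (d + k)) ∧
    ¬ ∀ k < d + m, f k = f (d + m - 1 - k)

theorem bad'_of_bad {α : Type*} {u : ℤ → α} {t : ℤ} {d m : ℕ} (h : Bad u t d m) :
    Bad' (fun y : ℕ => u (t + y)) d m := by
  obtain ⟨h1, h2, h3, h4, h5, h6⟩ := h
  refine ⟨h1, h2, ?_, ?_, ?_, ?_⟩
  · intro k hk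
    show u (t + k) = u (t + (d + k : ℕ))
    rw [h3 k hk]; congr 1; push_cast; ring
  · intro k hk
    show u (t + (d + k : ℕ)) = u (t + (d + (m - 1 - k) : ℕ))
    have := h4 k hk
    rw [show t + ((d + k : ℕ) : ℤ) = t + d + k by push_cast; ring, this]
    congr 1
    omega
  · intro r hr1 hr2 h
    refine h5 r hr1 hr2 fun k hk => ?_
    have : u (t + (r + k : ℕ)) = u (t + (d + k : ℕ)) := h k hk
    rw [show t + (r : ℤ) + k = t + ((r + k : ℕ) : ℤ) by push_cast; ring, this]
    congr 1; push_cast; ring
  · intro h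
    refine h6 fun k hk => ?_
    have : u (t + (k : ℕ)) = u (t + (d + m - 1 - k : ℕ)) := h k hk
    rw [this]; congr 1; omega

theorem Bad'.congr {α : Type*} {f g : ℕ → α} {d m : ℕ} (h : Bad' f d m)
    (hfg : ∀ y < d + m, f y = g y) : Bad' g d m := by
  obtain ⟨h1, h2, h3, h4, h5, h6⟩ := h
  refine ⟨h1, h2, ?_, ?_, ?_, ?_⟩
  · intro k hk
    rw [← hfg k (by omega), ← hfg (d + k) (by omega)]; exact h3 k hk
  · intro k hk
    rw [← hfg (d + k) (by omega), ← hfg (d + (m - 1 - k)) (by omega)]; exact h4 k hk
  · intro r hr1 hr2 h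
    refine h5 r hr1 hr2 fun k hk => ?_
    rw [hfg (r + k) (by omega), hfg (d + k) (by omega)]; exact h k hk
  · intro h
    refine h6 fun k hk => ?_
    rw [hfg k hk, hfg (d + m - 1 - k) (by omega)]; exact h k hk

theorem cE_iff {c t s n : ℕ} : cE c t s n = true ↔ ∀ k < n, v c (t + k) = v c (s + k) := by
  simp [cE]

theorem cP_iff {c t m : ℕ} :
    cP c t m = true ↔ ∀ k < m, v c (t + k) = v c (t + (m - 1 - k)) := by
  simp [cP]

theorem cO_iff {c t d n : ℕ} (h : cO c t d n = true) :
    ∃ r, 0 < r ∧ r < d ∧ ∀ k < n, v c (t + (r + k)) = v c (t + (d + k)) := by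
  simp only [cO, List.any_eq_true, List.mem_range] at h
  obtain ⟨r, hr, h⟩ := h
  refine ⟨r + 1, by omega, by omega, fun k hk => ?_⟩
  rw [cE_iff] at h
  rw [show t + (r + 1 + k) = t + (r + 1) + k by ring, show t + (d + k) = t + d + k by ring]
  exact h k hk

theorem not_bad'_of_cS {c t d n : ℕ} (h : cS c t d n = true) :
    ¬ Bad' (fun y => v c (t + y)) d n := by
  rintro ⟨h1, h2, h3, h4, h5, h6⟩
  have hE : cE c t (t + d) n = true := by
    rw [cE_iff]; intro k hk
    have : v c (t + k) = v c (t + (d + k)) := h3 k hk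
    rw [this, add_assoc]
  have hP : cP c (t + d) n = true := by
    rw [cP_iff]; intro k hk
    have : v c (t + (d + k)) = v c (t + (d + (n - 1 - k))) := h4 k hk
    rw [add_assoc, add_assoc, this]
  rw [cS, hE, hP] at h
  simp only [Bool.and_self, Bool.not_true, Bool.false_or, Bool.or_eq_true] at h
  rcases h with h | h
  · apply h6
    rw [cP_iff] at h
    exact h
  · obtain ⟨r, hr1, hr2, h⟩ := cO_iff h
    exact h5 r hr1 hr2 h

/-- the two-sided infinite word -/
def uu (c : ℕ) (x : ℤ) : Bool := c.testBit (sg x)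

theorem v_eq (c k : ℕ) : v c k = uu c ((k : ℤ) - 20) := by
  unfold v uu; rw [sg_shift]

theorem uu_right {c : ℕ} {x : ℤ} (h : 2 ≤ x) (q : ℕ) : uu c (x + 5 * q) = uu c x := by
  induction q with
  | zero => simp
  | succ q ih =>
    rw [← ih]
    unfold uu
    rw [show x + 5 * ((q + 1 : ℕ) : ℤ) = x + 5 * q + 5 by push_cast; ring, sg_right (by omega)]

theorem uu_left {c : ℕ} {x : ℤ} (h : x ≤ 4) (q : ℕ) : uu c (x - 5 * q) = uu c x := by
  induction q with
  | zero => simp
  | succ q ih =>
    rw [← ih]
    unfold uu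
    rw [show x - 5 * ((q + 1 : ℕ) : ℤ) = x - 5 * q - 5 by push_cast; ring, sg_left (by omega)]

theorem uu_right' {c : ℕ} {x y : ℤ} (h : 2 ≤ x) (hxy : x ≤ y) (hd : (y - x) % 5 = 0) :
    uu c y = uu c x := by
  have := uu_right (c := c) h ((y - x) / 5).toNat
  rw [← this]; congr 1; omega

theorem uu_left' {c : ℕ} {x y : ℤ} (h : y ≤ 4) (hxy : x ≤ y) (hd : (y - x) % 5 = 0) :
    uu c x = uu c y := by
  have := uu_left (c := c) h ((y - x) / 5).toNat
  rw [← this]; congr 1; omega

theorem noBad {c : ℕ} (hc : c < 128) (t : ℤ) (d m : ℕ) : ¬ Bad (uu c) t d m := by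
  intro h
  have hb := bad'_of_bad h
  obtain ⟨h1, h2, h3, h4, h5, h6⟩ := hb
  have hmid : ∀ r : ℕ, 0 < r → r < d → ¬ ∀ k < m, uu c (t + (r + k : ℕ)) = uu c (t + (d + k : ℕ)) :=
    h5
  have hEq : ∀ k < m, uu c (t + (k : ℕ)) = uu c (t + (d + k : ℕ)) := h3
  have hPal : ∀ k < m, uu c (t + (d + k : ℕ)) = uu c (t + (d + (m - 1 - k) : ℕ)) := h4
  have hnP : ¬ ∀ k < d + m, uu c (t + (k : ℕ)) = uu c (t + (d + m - 1 - k : ℕ)) := h6
  have hb := bad'_of_bad h
  by_cases ha : 7 ≤ t + d
  · -- the second occurrence is far to the right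
    have hd5 : d ≤ 5 := by
      by_contra hd
      refine hmid (d - 5) (by omega) (by omega) fun k hk => ?_
      exact (uu_right' (by omega) (by omega) (by omega)).symm
    -- shift
    obtain ⟨t₀, ht₀, htt⟩ : ∃ t₀ : ℕ, t₀ < 5 ∧ (t - (2 + t₀)) % 5 = 0 :=
      ⟨((t - 2) % 5).toNat, by omega, by omega⟩
    have hA := check_A ⟨c, hc⟩
    simp only [List.all_eq_true, List.mem_range] at hA
    have hA := hA t₀ ht₀
    simp only [cA, List.all_eq_true, List.mem_range] at hA
    have hA := hA d (by omega) m (by omega)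
    rw [show decide (1 ≤ m ∧ m < d) = true by simpa using ⟨h1, h2⟩] at hA
    refine not_bad'_of_cS (by simpa using hA) (hb.congr fun y hy => ?_)
    rw [v_eq]
    exact uu_right' (by push_cast; omega) (by push_cast; omega) (by push_cast; omega)
  by_cases hb' : t + m ≤ 0
  · have hd5 : d ≤ 5 := by
      by_contra hd
      refine hmid 5 (by omega) (by omega) fun k hk => ?_
      rw [← hEq k hk]
      exact (uu_left' (by push_cast; omega) (by push_cast; omega) (by push_cast; omega)).symm
    obtain ⟨t₀, ht₀, htt⟩ : ∃ t₀ : ℕ, t₀ < 5 ∧ (t - (t₀ - 9)) % 5 = 0 :=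
      ⟨((t + 9) % 5).toNat, by omega, by omega⟩
    have hA := check_B ⟨c, hc⟩
    simp only [List.all_eq_true, List.mem_range] at hA
    have hA := hA t₀ ht₀
    simp only [cA, List.all_eq_true, List.mem_range] at hA
    have hA := hA d (by omega) m (by omega)
    rw [show decide (1 ≤ m ∧ m < d) = true by simpa using ⟨h1, h2⟩] at hA
    refine not_bad'_of_cS (by simpa using hA) (hb.congr fun y hy => ?_)
    rw [v_eq]
    by_cases hcmp : t ≤ t₀ - 9
    · exact uu_left' (by push_cast; omega) (by push_cast; omega) (by push_cast; omega)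
    · exact (uu_left' (by omega) (by push_cast; omega) (by push_cast; omega)).symm
  -- across the middle
  obtain ⟨e, he⟩ : ∃ e : ℕ, (e : ℤ) = t + m - 1 := ⟨(t + m - 1).toNat, by omega⟩
  obtain ⟨s, hs⟩ : ∃ s : ℕ, (s : ℤ) = t + d := ⟨(t + d).toNat, by omega⟩
  have hes : e + 2 ≤ s := by omega
  have hs6 : s < 7 := by omega
  by_cases hm : m ≤ 4
  · have hC := check_C ⟨c, hc⟩
    simp only [cC, List.all_eq_true, List.mem_range] at hC
    have hC := hC e (by omega) s (by omega)
    rw [show decide (e + 2 ≤ s) = true by simpa using hes] at hC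
    simp only [Bool.not_true, Bool.false_or, List.all_eq_true, List.mem_range] at hC
    have hC := hC m (by omega)
    rw [show decide (1 ≤ m) = true by simpa using h1] at hC
    rw [show s + m - (e + 1) = d by omega] at hC
    refine not_bad'_of_cS (by simpa using hC) (hb.congr fun y hy => ?_)
    rw [v_eq]
    congr 1
    omega
  · -- long palindromes
    obtain ⟨m₀, hm₀, q, hq⟩ : ∃ m₀ : ℕ, m₀ < 5 ∧ ∃ q : ℕ, m = m₀ + 5 + 5 * q :=
      ⟨m % 5, by omega, (m - 5) / 5, by omega⟩
    have hD := check_D ⟨c, hc⟩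
    simp only [cD, List.all_eq_true, List.mem_range] at hD
    have hD := hD e (by omega) s (by omega)
    rw [show decide (e + 2 ≤ s) = true by simpa using hes] at hD
    simp only [Bool.not_true, Bool.false_or, List.all_eq_true, List.mem_range] at hD
    have hD := hD m₀ hm₀
    have hE0 : cE c (e + 21 - (m₀ + 5)) (s + 20) (m₀ + 5) = true := by
      rw [cE_iff]
      intro k hk
      rw [v_eq, v_eq]
      have e1 := hEq k (by omega)
      have e2 : uu c (t + k) = uu c (((e + 21 - (m₀ + 5) + k : ℕ) : ℤ) - 20) :=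
        uu_left' (by omega) (by omega) (by omega)
      rw [← e2, e1]
      congr 1
      omega
    have hP0 : cP c (s + 20) (m₀ + 5) = true := by
      rw [cP_iff]
      intro k hk
      rw [v_eq, v_eq]
      have e1 := hPal k (by omega)
      have e2 : uu c (t + (d + (m - 1 - k) : ℕ)) =
          uu c (((s + 20 + (m₀ + 5 - 1 - k) : ℕ) : ℤ) - 20) :=
        uu_right' (by omega) (by omega) (by omega)
      rw [← e2, ← e1]
      congr 1
      omega
    rw [hE0, hP0] at hD
    simp only [Bool.and_self, Bool.not_true, Bool.false_or, Bool.or_eq_true, List.all_eq_true,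
      List.mem_range, beq_iff_eq] at hD
    rcases hD with (hD | hD) | hD
    · -- the gap is a palindrome
      rw [cP_iff] at hD
      apply hnP
      have key : ∀ k < m, uu c (t + (k : ℕ)) = uu c (t + (d + m - 1 - k : ℕ)) := by
        intro k hk
        rw [hEq k hk, hPal k hk]
        congr 1
        omega
      intro k hk
      by_cases hk1 : k < m
      · exact key k hk1
      by_cases hk2 : d ≤ k
      · have := key (d + m - 1 - k) (by omega)
        rw [this]
        congr 1
        omega
      · have := hD (k - m) (by omega)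
        rw [v_eq, v_eq] at this
        have e1 : t + (k : ℤ) = ((e + 21 + (k - m) : ℕ) : ℤ) - 20 := by omega
        have e2 : t + ((d + m - 1 - k : ℕ) : ℤ)
            = ((e + 21 + (s - e - 1 - 1 - (k - m)) : ℕ) : ℤ) - 20 := by omega
        rw [e1, e2]
        exact this
    · refine hmid 5 (by omega) (by omega) fun k hk => ?_
      rw [← hEq k hk]
      by_cases hneg : t + k ≤ -1
      · exact (uu_left' (by push_cast; omega) (by push_cast; omega) (by push_cast; omega)).symm
      · have := hD (t + k).toNat (by omega)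
        rw [v_eq, v_eq] at this
        have e1 : t + ((5 + k : ℕ) : ℤ) = (((t + k).toNat + 25 : ℕ) : ℤ) - 20 := by omega
        have e2 : t + (k : ℤ) = (((t + k).toNat + 20 : ℕ) : ℤ) - 20 := by omega
        exact (congrArg (uu c) e1).trans (this.trans (congrArg (uu c) e2.symm))
    · refine hmid (d - 5) (by omega) (by omega) fun k hk => ?_
      by_cases hbig : 7 ≤ s + k
      · exact (uu_right' (by omega) (by omega) (by omega)).symm
      · have := hD k (by omega)
        rw [v_eq, v_eq] at this
        have e1 : t + ((d - 5 + k : ℕ) : ℤ) = ((s + k + 15 : ℕ) : ℤ) - 20 := by omega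
        have e2 : t + ((d + k : ℕ) : ℤ) = ((s + k + 20 : ℕ) : ℤ) - 20 := by omega
        rw [e1, e2]
        exact this

theorem rich_uu {c : ℕ} (hc : c < 128) (i : ℤ) (n : ℕ) : Rich (fac (uu c) i n) :=
  rich_of_noBad (fun t d m => noBad hc t d m) i n

theorem rich_comp (f : ℕ → Bool) (i : ℤ) (n : ℕ) : Rich (fac (fun x => f (sg x)) i n) := by
  have h := rich_uu (c := Nat.ofBits fun k : Fin 7 => f k) (Nat.ofBits_lt_two_pow _) i n
  have e : uu (Nat.ofBits fun k : Fin 7 => f k) = fun x => f (sg x) := by
    funext x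
    unfold uu
    rw [Nat.testBit_ofBits_lt _ _ (sg_lt x)]
  rwa [e] at h

/-- **Main result.** Every binary `7 × 7` square extends to a rich plane. -/
theorem result : ∀ w : PartialWord, IsSevenSquare w → ExtendsToRichPlane w := by
  rintro w ⟨i₀, j₀, hw⟩
  refine ⟨fun i j => (w (i₀ + sg (i - i₀)) (j₀ + sg (j - j₀))).getD false, ?_, ?_⟩
  · intro i j a ha
    obtain ⟨⟨h1, h2⟩, h3, h4⟩ := hw i j (by rw [ha]; simp)
    have e1 : i₀ + (sg (i - i₀) : ℤ) = i := by rw [sg_id (by omega) (by omega)]; omega
    have e2 : j₀ + (sg (j - j₀) : ℤ) = j := by rw [sg_id (by omega) (by omega)]; omega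
    simp only [e1, e2, ha, Option.getD_some]
  · intro i j n
    constructor
    · have h := rich_comp (fun k => (w (i₀ + sg (i - i₀)) (j₀ + k)).getD false) (j - j₀) (n + 1)
      have e : fac (fun x : ℤ => (w (i₀ + sg (i - i₀)) (j₀ + sg x)).getD false) (j - j₀) (n + 1)
          = (List.range (n + 1)).map fun k : ℕ =>
            (w (i₀ + sg (i - i₀)) (j₀ + sg (j + k - j₀))).getD false := by
        unfold fac
        apply List.map_congr_left
        intro k _
        rw [show j - j₀ + (k : ℤ) = j + k - j₀ by ring]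
      rw [← e]
      exact h
    · have h := rich_comp (fun k => (w (i₀ + k) (j₀ + sg (j - j₀))).getD false) (i - i₀) (n + 1)
      have e : fac (fun x : ℤ => (w (i₀ + sg x) (j₀ + sg (j - j₀))).getD false) (i - i₀) (n + 1)
          = (List.range (n + 1)).map fun k : ℕ =>
            (w (i₀ + sg (i + k - i₀)) (j₀ + sg (j - j₀))).getD false := by
        unfold fac
        apply List.map_congr_left
        intro k _
        rw [show i - i₀ + (k : ℤ) = i + k - i₀ by ring]
      rw [← e]
      exact h

end Pool.Agent.Results.MP_0bf243_co.SevenSquares
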